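import Pool.Agent.helper82.T6.SpecL

/-! Row Z4 of the project T6 (MP_16912e_nt): the number of solutions of a quadratic congruence modulo a prime power. -/

set_option autoImplicit false

namespace Pool.Agent.T6

open Finset Pool.Agent.helper3.FT

theorem Z4_root (p : ℤ) (hp : Prime p) (hp0 : p ≠ 0) :
    ∀ (c : ℕ) (E : ℤ), p ^ (2 * c - 1) ∣ E ^ 2 → p ^ c ∣ E := by
  intro c
  induction c with
  | zero => intro E _; simp
  | succ c ih =>
    intro E h
    have h1 : p ∣ E ^ 2 := by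
      refine dvd_trans (dvd_pow_self p ?_) h
      omega
    have h2 : p ∣ E := hp.dvd_of_dvd_pow h1
    obtain ⟨E', rfl⟩ := h2
    have h3 : p ^ (2 * c - 1) ∣ E' ^ 2 := by
      rcases Nat.eq_zero_or_pos c with h0 | h0
      · subst h0
        simp
      · have e1 : 2 * (c + 1) - 1 = 2 * c - 1 + 2 := by omega
        rw [e1, pow_add, mul_pow, mul_comm (p ^ 2)] at h
        exact (mul_dvd_mul_iff_right (pow_ne_zero 2 hp0)).1 h
    rw [pow_succ, mul_comm]
    exact mul_dvd_mul_left p (ih E' h3)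

theorem Z4_split (p : ℤ) (hp : Prime p) (c : ℕ) (x y : ℤ) (h : p ^ c ∣ x * y) (hx : ¬ p ∣ x) : p ^ c ∣ y := by
  have h1 : IsCoprime (p ^ c) x := by
    refine IsCoprime.pow_left ?_
    exact (Prime.coprime_iff_not_dvd hp).2 hx
  exact h1.dvd_of_dvd_mul_left h

open Classical in
theorem Z4 : Z4_stmt := by
  intro p a n k hp hp5 ha hnk
  have hpZ : Prime (p : ℤ) := Nat.prime_iff_prime_int.1 hp
  have hp0 : (p : ℤ) ≠ 0 := hpZ.ne_zero
  set c : ℕ := (a + 1) / 2 with hc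
  have hca : a - c = a / 2 := by omega
  have hca' : c ≤ a := by omega
  have hc1 : 1 ≤ c := by omega
  set S := (range (p ^ a)).filter (fun r => Nat.Coprime r p ∧
      (p : ℤ) ^ a ∣ (k ^ 2 * r ^ 2 + 3 * n * k * r + n ^ 2) ^ 2) with hS
  -- properties of the elements
  have hE : ∀ r ∈ S, (p : ℤ) ^ c ∣ k ^ 2 * (r : ℤ) ^ 2 + 3 * n * k * r + n ^ 2 := by
    intro r hr
    rw [hS, Finset.mem_filter] at hr
    refine Z4_root p hpZ hp0 c _ (dvd_trans (pow_dvd_pow _ ?_) hr.2.2)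
    omega
  have hpE : ∀ r ∈ S, (p : ℤ) ∣ k ^ 2 * (r : ℤ) ^ 2 + 3 * n * k * r + n ^ 2 := fun r hr =>
    dvd_trans (dvd_pow_self _ (by omega)) (hE r hr)
  have hcop : ∀ r ∈ S, ¬ (p : ℤ) ∣ (r : ℤ) := by
    intro r hr h
    rw [hS, Finset.mem_filter] at hr
    have h1 : p ∣ r := Int.natCast_dvd_natCast.1 h
    have h2 : p ∣ Nat.gcd r p := Nat.dvd_gcd h1 dvd_rfl
    rw [hr.2.1] at h2
    exact hp.one_lt.ne' (Nat.dvd_one.1 h2)
  have hboth : ¬ ((p : ℤ) ∣ n ∧ (p : ℤ) ∣ k) := by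
    rintro ⟨h1, h2⟩
    obtain ⟨u, v, huv⟩ := hnk
    have h3 : (p : ℤ) ∣ 1 := by
      rw [← huv]
      exact dvd_add (Dvd.dvd.mul_left h1 u) (Dvd.dvd.mul_left h2 v)
    exact hpZ.not_dvd_one h3
  have hk : ∀ r ∈ S, ¬ (p : ℤ) ∣ k := by
    intro r hr h
    have h1 : (p : ℤ) ∣ n ^ 2 := by
      have e : n ^ 2 = (k ^ 2 * (r : ℤ) ^ 2 + 3 * n * k * r + n ^ 2) - k * (k * (r : ℤ) ^ 2 + 3 * n * r) := by ring
      rw [e]
      exact dvd_sub (hpE r hr) (Dvd.dvd.mul_right h _)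
    exact hboth ⟨hpZ.dvd_of_dvd_pow h1, h⟩
  have hn : ∀ r ∈ S, ¬ (p : ℤ) ∣ n := by
    intro r hr h
    have h1 : (p : ℤ) ∣ (k * r) ^ 2 := by
      have e : (k * (r : ℤ)) ^ 2 = (k ^ 2 * (r : ℤ) ^ 2 + 3 * n * k * r + n ^ 2) - n * (3 * k * r + n) := by ring
      rw [e]
      exact dvd_sub (hpE r hr) (Dvd.dvd.mul_right h _)
    rcases hpZ.dvd_or_dvd (hpZ.dvd_of_dvd_pow h1) with h2 | h2
    · exact hk r hr h2
    · exact hcop r hr h2
  -- two solutions
  have htwo : ∀ r ∈ S, ∀ r' ∈ S, ¬ (p : ℤ) ^ c ∣ (r : ℤ) - r' → (p : ℤ) ^ c ∣ k * (r + r') + 3 * n := by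
    intro r hr r' hr' hne
    have h1 : (p : ℤ) ^ c ∣ k * (((r : ℤ) - r') * (k * (r + r') + 3 * n)) := by
      have e : k * (((r : ℤ) - r') * (k * (r + r') + 3 * n)) =
        (k ^ 2 * (r : ℤ) ^ 2 + 3 * n * k * r + n ^ 2) - (k ^ 2 * (r' : ℤ) ^ 2 + 3 * n * k * r' + n ^ 2) := by ring
      rw [e]
      exact dvd_sub (hE r hr) (hE r' hr')
    have h2 := Z4_split p hpZ c _ _ h1 (hk r hr)
    by_cases h3 : (p : ℤ) ∣ (r : ℤ) - r'
    · have h4 : ¬ (p : ℤ) ∣ k * (r + r') + 3 * n := by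
        intro h5
        have h6 : (p : ℤ) ∣ 2 * k * r + 3 * n := by
          have e : 2 * k * (r : ℤ) + 3 * n = (k * (r + r') + 3 * n) + k * ((r : ℤ) - r') := by ring
          rw [e]
          exact dvd_add h5 (Dvd.dvd.mul_left h3 k)
        have h7 : (p : ℤ) ∣ 5 * n ^ 2 := by
          have e : 5 * n ^ 2 = (2 * k * (r : ℤ) + 3 * n) * (2 * k * r + 3 * n) -
            4 * (k ^ 2 * (r : ℤ) ^ 2 + 3 * n * k * r + n ^ 2) := by ring
          rw [e]
          exact dvd_sub (Dvd.dvd.mul_right h6 _) (Dvd.dvd.mul_left (hpE r hr) 4)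
        rcases hpZ.dvd_or_dvd h7 with h8 | h8
        · have h9 : p ∣ 5 := by exact_mod_cast h8
          have h10 := Nat.le_of_dvd (by norm_num) h9
          omega
        · exact hn r hr (hpZ.dvd_of_dvd_pow h8)
      exact absurd (Z4_split p hpZ c _ _ (by rw [mul_comm] at h2; exact h2) h4) hne
    · exact Z4_split p hpZ c _ _ h2 h3
  -- at most two classes modulo p ^ c
  have himg : (S.image (fun r => r % p ^ c)).card ≤ 2 := by
    by_contra hcon
    push Not at hcon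
    obtain ⟨x, hx, y, hy, z, hz, hxy, hxz, hyz⟩ := Finset.two_lt_card.1 hcon
    rw [Finset.mem_image] at hx hy hz
    obtain ⟨r1, hr1, rfl⟩ := hx
    obtain ⟨r2, hr2, rfl⟩ := hy
    obtain ⟨r3, hr3, rfl⟩ := hz
    have hmod : ∀ r r' : ℕ, r % p ^ c ≠ r' % p ^ c → ¬ (p : ℤ) ^ c ∣ (r : ℤ) - r' := by
      intro r r' hne h
      apply hne
      have h1 : (r' : ℤ) ≡ r [ZMOD ((p ^ c : ℕ) : ℤ)] := (Int.modEq_iff_dvd).2 (by push_cast; exact h)
      exact (Int.natCast_modEq_iff.1 h1).symm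
    have h12 := htwo r1 hr1 r2 hr2 (hmod _ _ hxy)
    have h13 := htwo r1 hr1 r3 hr3 (hmod _ _ hxz)
    have h23 := hmod _ _ hyz
    have h4 : (p : ℤ) ^ c ∣ k * ((r2 : ℤ) - r3) := by
      have e : k * ((r2 : ℤ) - r3) = (k * (r1 + r2) + 3 * n) - (k * (r1 + r3) + 3 * n) := by ring
      rw [e]
      exact dvd_sub h12 h13
    exact h23 (Z4_split p hpZ c _ _ h4 (hk r1 hr1))
  have hfib : ∀ t ∈ S.image (fun r => r % p ^ c), (S.filter (fun r => r % p ^ c = t)).card ≤ p ^ (a / 2) := by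
    intro t _
    have hpc : 0 < p ^ c := pow_pos hp.pos c
    rw [← Finset.card_range (p ^ (a / 2))]
    refine Finset.card_le_card_of_injOn (fun r => r / p ^ c) ?_ ?_
    · intro r hr
      rw [Finset.mem_coe, Finset.mem_filter, hS, Finset.mem_filter, Finset.mem_range] at hr
      rw [Finset.mem_coe, Finset.mem_range, ← hca, Nat.div_lt_iff_lt_mul hpc, ← pow_add]
      have e : a - c + c = a := by omega
      rw [e]
      exact hr.1.1
    · intro r hr r' hr' h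
      rw [Finset.mem_coe, Finset.mem_filter] at hr hr'
      simp only at h
      rw [← Nat.div_add_mod r (p ^ c), ← Nat.div_add_mod r' (p ^ c), h, hr.2, hr'.2]
  have hfin := Finset.card_le_mul_card_image (f := fun r => r % p ^ c) S (p ^ (a / 2)) hfib
  calc S.card ≤ p ^ (a / 2) * (S.image (fun r => r % p ^ c)).card := hfin
    _ ≤ p ^ (a / 2) * 2 := Nat.mul_le_mul_left _ himg
    _ = 2 * p ^ (a / 2) := Nat.mul_comm _ _

end Pool.Agent.T6
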